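import Mathlib

set_option autoImplicit false

namespace Pool.Agent.Results.MP_424c76_an.Rhombus

open Polynomial Set

/-- The shadow of P: closure of all zeros of the m-th derivatives of P^n, n ≥ 1, m ≤ n d. -/
def shadow (P : ℂ[X]) : Set ℂ :=
  closure {z | ∃ n m : ℕ, 1 ≤ n ∧ m ≤ n * P.natDegree ∧ (derivative^[m] (P ^ n)).eval z = 0}

theorem step (f : ℂ[X]) (s : ℂ) (hs : f.comp (-X) = C s * f)
    (hr : ∀ z, f.eval z = 0 → (z ^ 2).im = 0) (h0 : derivative f ≠ 0) :
    (derivative f).comp (-X) = C (-s) * derivative f ∧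
      ∀ z, (derivative f).eval z = 0 → (z ^ 2).im = 0 := by
  have h1 : (derivative f).comp (-X) = C (-s) * derivative f := by
    have := congrArg derivative hs
    rw [derivative_comp, derivative_C_mul] at this
    simp only [derivative_X, neg_mul, one_mul, map_neg] at this ⊢
    rw [← this, neg_neg]
  refine ⟨h1, fun z hz => ?_⟩
  by_contra hne
  have hz' : (derivative f).eval (-z) = 0 := by
    have := congrArg (eval z) h1
    simpa [eval_comp, hz] using this
  have f1 : f.eval z ≠ 0 := fun h => hne (hr z h)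
  have f2 : f.eval (-z) ≠ 0 := fun h => hne (by simpa using hr _ h)
  have f0 : f ≠ 0 := by rintro rfl; simp at f1
  have e1 := (IsAlgClosed.splits f).eval_derivative_div_eval_of_ne_zero f1
  have e2 := (IsAlgClosed.splits f).eval_derivative_div_eval_of_ne_zero f2
  rw [hz, zero_div] at e1
  rw [hz', zero_div] at e2
  have z0 : z ≠ 0 := by rintro rfl; simp at hne
  have key : ∀ r ∈ f.roots, 0 < -(z ^ 2).im * ((1 / (z - r) - 1 / (-z - r)) / (2 * z)).im := by
    intro r hr'
    have hr0 : f.eval r = 0 := (mem_roots f0).1 hr'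
    have a1 : z - r ≠ 0 := fun h => f1 (by rwa [sub_eq_zero.1 h])
    have a2 : -z - r ≠ 0 := fun h => f2 (by rwa [sub_eq_zero.1 h])
    have a3 : z ^ 2 - r ^ 2 ≠ 0 := by
      rw [show z ^ 2 - r ^ 2 = -((z - r) * (-z - r)) by ring]
      exact neg_ne_zero.2 (mul_ne_zero a1 a2)
    have e : (1 / (z - r) - 1 / (-z - r)) / (2 * z) = (z ^ 2 - r ^ 2)⁻¹ := by
      field_simp; ring
    rw [e, Complex.inv_im, Complex.sub_im, hr r hr0, sub_zero]
    have := Complex.normSq_pos.2 a3
    rw [← mul_div_assoc, neg_mul_neg]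
    exact div_pos (mul_self_pos.2 hne) this
  have hne' : f.roots ≠ 0 := by
    intro h
    have := (IsAlgClosed.splits f).natDegree_eq_card_roots
    rw [h, Multiset.card_zero] at this
    exact h0 (by rw [eq_C_of_natDegree_eq_zero this, derivative_C])
  let φ : ℂ →+ ℝ := AddMonoidHom.mk' (fun w => -(z ^ 2).im * (w / (2 * z)).im) fun a b => by
    simp only [add_div, Complex.add_im]; ring
  have := Multiset.sum_lt_sum_of_nonempty (f := fun _ => (0 : ℝ))
    (g := fun r => φ (1 / (z - r) - 1 / (-z - r))) hne' key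
  rw [Multiset.sum_map_zero] at this
  have e3 : (f.roots.map fun r => φ (1 / (z - r) - 1 / (-z - r))).sum =
      φ (f.roots.map fun r => 1 / (z - r) - 1 / (-z - r)).sum := by
    rw [map_multiset_sum, Multiset.map_map]; rfl
  rw [e3, Multiset.sum_map_sub, ← e1, ← e2, sub_zero, map_zero] at this
  exact lt_irrefl _ this

theorem nz (f : ℂ[X]) (hf : f ≠ 0) (m : ℕ) (hm : m ≤ f.natDegree) : derivative^[m] f ≠ 0 := by
  intro h
  have := coeff_iterate_derivative (k := m) f (f.natDegree - m)
  rw [h, coeff_zero, Nat.sub_add_cancel hm, nsmul_eq_mul] at this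
  exact mul_ne_zero (Nat.cast_ne_zero.2 (Nat.descFactorial_pos.2 hm).ne')
    (leadingCoeff_ne_zero.2 hf) this.symm

noncomputable def P : ℂ[X] := (X ^ 2 - 4) * (X ^ 2 + 1)

theorem P_eval (z : ℂ) : P.eval z = 0 ↔ z = 2 ∨ z = -2 ∨ z = Complex.I ∨ z = -Complex.I := by
  have : P.eval z = (z - 2) * ((z + 2) * ((z - Complex.I) * (z + Complex.I))) := by
    simp only [P, eval_mul, eval_sub, eval_add, eval_pow, eval_X, eval_ofNat, eval_one]
    linear_combination (z ^ 2 - 4) * Complex.I_sq
  simp only [this, mul_eq_zero, sub_eq_zero, add_eq_zero_iff_eq_neg]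

theorem P_deg : P.natDegree = 4 := by unfold P; compute_degree!

theorem cross (n m : ℕ) (hm : m ≤ n * 4) : ∃ s : ℂ,
    (derivative^[m] (P ^ n)).comp (-X) = C s * derivative^[m] (P ^ n) ∧
      ∀ z, (derivative^[m] (P ^ n)).eval z = 0 → (z ^ 2).im = 0 := by
  induction m with
  | zero =>
    refine ⟨1, by simp [P], fun z hz => ?_⟩
    simp only [Function.iterate_zero, id, eval_pow] at hz
    rcases (P_eval z).1 (pow_eq_zero_iff (by rintro rfl; simp at hz) |>.1 hz) with
      h | h | h | h <;> simp [h, pow_two]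
  | succ m ih =>
    obtain ⟨s, h1, h2⟩ := ih (by omega)
    have hP : P ≠ 0 := fun h => by have := P_deg; rw [h] at this; simp at this
    have := nz (P ^ n) (pow_ne_zero _ hP) (m + 1) (by rwa [natDegree_pow, P_deg])
    rw [Function.iterate_succ_apply'] at this ⊢
    exact ⟨-s, step _ s h1 h2 this⟩

theorem result : ∃ P : ℂ[X], 3 ≤ P.natDegree ∧ {z | P.eval z = 0}.ncard = P.natDegree ∧
    (∀ r, P.eval r = 0 → r ∉ convexHull ℝ ({z | P.eval z = 0} \ {r})) ∧
    (¬ ∃ (c : ℂ) (ρ : ℝ), ∀ r, P.eval r = 0 → ‖r - c‖ = ρ) ∧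
    interior (shadow P) = ∅ ∧
    ¬ ∃ U : Set ℂ, IsOpen U ∧ IsConnected U ∧ shadow P = closure U := by
  have hint : interior (shadow P) = ∅ := by
    have h1 : shadow P ⊆ {z | (z ^ 2).im = 0} := by
      refine closure_minimal ?_ (isClosed_eq (by fun_prop) continuous_const)
      rintro z ⟨n, m, -, hm, hz⟩
      obtain ⟨s, -, h⟩ := cross n m (by rwa [P_deg] at hm)
      exact h z hz
    refine eq_empty_of_forall_notMem fun z hz => ?_
    obtain ⟨r, hr, hb⟩ := Metric.mem_nhds_iff.1 (mem_interior_iff_mem_nhds.1 hz)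
    have key : ∀ a b : ℝ, |a| < r / 2 → |b| < r / 2 → (z.re + a) * (z.im + b) = 0 := by
      intro a b ha hb'
      have : z + ⟨a, b⟩ ∈ Metric.ball z r := by
        rw [mem_ball_iff_norm, add_sub_cancel_left]
        exact (Complex.norm_le_abs_re_add_abs_im _).trans_lt (by simp only; linarith)
      have := h1 (hb this)
      simp only [mem_ofPred_eq, pow_two, Complex.mul_im, Complex.add_re, Complex.add_im] at this
      linarith
    have q : |r / 4| < r / 2 := by rw [abs_of_pos] <;> linarith
    have q0 : |(0 : ℝ)| < r / 2 := by simpa using hr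
    have k1 := key 0 0 q0 q0
    have k2 := key (r / 4) 0 q q0
    have k3 := key 0 (r / 4) q0 q
    have k4 := key (r / 4) (r / 4) q q
    nlinarith
  have hset : {z | P.eval z = 0} = {2, -2, Complex.I, -Complex.I} := by
    ext z; simp [P_eval]
  refine ⟨P, by rw [P_deg]; norm_num, ?_, fun r hr hc => ?_, ?_, hint, ?_⟩
  · rw [hset, P_deg, ncard_insert_of_notMem, ncard_insert_of_notMem, ncard_pair] <;>
      norm_num [Complex.ext_iff]
  · have key : ∀ a b : ℝ, a * r.re + b * r.im = 1 →
        (∀ z, P.eval z = 0 → z ≠ r → a * z.re + b * z.im ≤ 0) → False := by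
      intro a b h1 h2
      have hc' : Convex ℝ {z : ℂ | a * z.re + b * z.im ≤ 0} :=
        convex_halfSpace_le (f := fun z : ℂ => a * z.re + b * z.im)
          ⟨fun x y => by simp only [Complex.add_re, Complex.add_im]; ring,
            fun c x => by simp only [Complex.real_smul, Complex.re_ofReal_mul,
              Complex.im_ofReal_mul, smul_eq_mul]; ring⟩ 0
      have := convexHull_min (fun z hz => h2 z hz.1 hz.2) hc' hc
      have : a * r.re + b * r.im ≤ 0 := this
      linarith
    rcases (P_eval r).1 hr with h | h | h | h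
    · refine key (1 / 2) 0 (by simp [h]) fun z hz hne => ?_
      rcases (P_eval z).1 hz with e | e | e | e <;> simp_all
    · refine key (-1 / 2) 0 (by simp [h]) fun z hz hne => ?_
      rcases (P_eval z).1 hz with e | e | e | e <;> simp_all <;> norm_num
    · refine key 0 1 (by simp [h]) fun z hz hne => ?_
      rcases (P_eval z).1 hz with e | e | e | e <;> simp_all
    · refine key 0 (-1) (by simp [h]) fun z hz hne => ?_
      rcases (P_eval z).1 hz with e | e | e | e <;> simp_all
  · rintro ⟨c, ρ, h⟩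
    have k : ∀ r, P.eval r = 0 → (r.re - c.re) ^ 2 + (r.im - c.im) ^ 2 = ρ ^ 2 := fun r hr => by
      rw [← h r hr, Complex.sq_norm, Complex.normSq_apply]; simp only [Complex.sub_re,
        Complex.sub_im]; ring
    have k1 := k 2 ((P_eval _).2 (by simp))
    have k2 := k (-2) ((P_eval _).2 (by simp))
    have k3 := k Complex.I ((P_eval _).2 (by simp))
    have k4 := k (-Complex.I) ((P_eval _).2 (by simp))
    simp at k1 k2 k3 k4
    nlinarith
  · rintro ⟨U, h1, h2, h3⟩
    obtain ⟨x, hx⟩ := h2.nonempty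
    have : x ∈ interior (shadow P) := by
      rw [h3]; exact interior_maximal subset_closure h1 hx
    rw [hint] at this
    exact this

end Pool.Agent.Results.MP_424c76_an.Rhombus
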